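import Pool.Agent.Helper70_sg.Sg8

/-!
# The sign conjecture is a statement about one class: the determinant of the odd cohomology

Let `W` be a Weil cohomology theory with coefficient field `K` (for example de Rham or crystalline
cohomology) and let `X` be a variety of dimension `d`. Let `H⁺` and `H⁻` be the even and the odd
cohomology of `X`, and `b = dim H⁻`, which is an even number. The line `det H⁻`, the top exterior power of
`H⁻`, is embedded in `H⁻ ⊗ ... ⊗ H⁻` by antisymmetrisation, hence lies in `H(X ^ b)`; its degree is
`d b`, the middle degree of `X ^ b`.

**The sign conjecture `C⁺(X)` holds if and only if this line is spanned by the class of an algebraic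
cycle of codimension `d b / 2` on `X ^ b`.** It suffices that the line is spanned by a `K`-linear
combination of classes of algebraic cycles, and also that some positive tensor power of it is. In the
same way `C⁺(X)` is equivalent to the algebraicity of the square, or of any positive tensor power, of the
line `det H⁺`.

So `C⁺(X)` is a statement about a single class on a single variety. If `k` is the field of complex
numbers this class is a Hodge class, as `det H⁻` is a rational Hodge structure of dimension one: the
sign conjecture for `X` is the Hodge conjecture for one class on `X ^ b`.

More generally let `x` and `y` be families of even classes, or of odd classes, which are dual to each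
other for the Poincare pairing. Then the projector `c ↦ ∑ tr(x_b c) y_b` (and every idempotent whose
image consists of classes of one parity is of this form) is a combination of algebraic correspondences if
and only if the class `δ_x ⊠ δ_y` is a combination of classes of cycles, where `δ_x` and `δ_y` are the
antisymmetrised external products of the two families. If `x` and `y` are bases of the same subspace `V`,
so that the projector is the orthogonal projector onto `V`, then it is equivalent that the square, or any
positive tensor power, of the line `det V` is spanned by a combination of classes of cycles, and for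
odd classes that the line `det V` itself is.

Proof. Let `γ = ∑ x_b ⊠ y_b`, which induces `e` up to sign (`corr_pj`). If `γ` is algebraic then so is
`∑ x_{v 0} ⊠ ... ⊠ x_{v n} ⊠ y_{v 0} ⊠ ... ⊠ y_{v n}` and its antisymmetrisation in the first factors, which is
`δ_x ⊠ δ_y` (`det_cl`). Conversely the partial diagonal which identifies the first `n` factors of the
two sides contracts `δ_x ⊠ δ_y` to a nonzero multiple of `γ` (`form_algP`). Powers are contracted by
`tr(δ δ) ≠ 0` (`square_of_powerV`). On `H⁻` the pairing is alternating and
`δ` is a multiple of the antisymmetrisation of `γ ⊠ ... ⊠ γ` (`det_oddV`), because the top power of a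
nondegenerate two-form is not zero. All this preserves rational coefficients (`ClSys`), and if `e` is the
projector onto `H⁻` with `K`-coefficients, then it is rational by the trace formula
(`signStd_of_span`, a starting result). The line is homogeneous since the operator `2 ^ j` on `H^j` is
compatible with products, and its degree is the middle one since `tr(δ δ) ≠ 0` (`det_homog`).
-/

open CategoryTheory AlgebraicGeometry

universe u v

namespace Pool.Agent.Results.MP_56c18a_ag.DeterminantLine

open Pool.Agent.H914 Pool.Agent.H914.VarClass Pool.Agent.H914.VarClass.Obj
  Pool.Agent.H914.WeilCohomology Pool.Agent.H447 Pool.Agent.Helper70Sg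

/-- **The sign conjecture and the determinant of the odd cohomology.** -/
theorem result {k : Type u} [Field k] {𝒱 : VarClass k} {ops : CycleOps 𝒱}
    (W : WeilCohomology.{u, v} ops) (X : 𝒱.Obj) :
    List.TFAE [
      SignStd W X,
      LineRational W X (oddPart W X) 0,
      LineAlgebraicMid W X (oddPart W X) 0,
      ∃ m, LineAlgebraicMid W X (oddPart W X) m,
      LineRational W X (evenPart W X) 1,
      LineAlgebraicMid W X (evenPart W X) 1,
      ∃ m, LineAlgebraicMid W X (evenPart W X) m] ∧
    ∀ (n : ℕ) (x y : Fin (n + 1) → W.H X), SameParity W X n x y → DualFamilies W X n x y →
      (ProjAlgebraic W X n x y ↔ PairAlgebraic W X n x y) ∧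
      (SameSpan W X n x y → List.TFAE [
        ProjAlgebraic W X n x y,
        PowerAlgebraic W X n 1 y,
        ∃ m, PowerAlgebraic W X n m y]) ∧
      (SameSpan W X n x y → FamIn W X (oddPart W X) n y →
        (ProjAlgebraic W X n x y ↔ PowerAlgebraic W X n 0 y)) := by
  refine ⟨?_, fun n x y h hd => dual_principle h hd⟩
  rw [evenPart_eq, oddPart_eq]
  tfae_have 1 → 2 := rational_odd
  tfae_have 2 → 3 := mid_of_rational
  tfae_have 3 → 4 := fun h => ⟨0, h⟩
  tfae_have 4 → 1 := by
    rintro ⟨m, hm⟩
    rw [sign_iff_odd, orth_iff_square le_rfl (nondeg_pty 1),
      ← power_iff_square le_rfl (nondeg_pty 1)]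
    exact ⟨m, (mid_iff m).1 hm⟩
  tfae_have 1 → 5 := rational_even
  tfae_have 5 → 6 := mid_of_rational
  tfae_have 6 → 7 := fun h => ⟨1, h⟩
  tfae_have 7 → 1 := by
    rintro ⟨m, hm⟩
    rw [sign_iff_even, orth_iff_square le_rfl (nondeg_pty 0),
      ← power_iff_square le_rfl (nondeg_pty 0)]
    exact ⟨m, (mid_iff m).1 hm⟩
  tfae_finish

end Pool.Agent.Results.MP_56c18a_ag.DeterminantLine
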